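import Pool.Agent.Helper45.LGB.St

/-!
# Project LGB, module STP: words with large packings lower the second filtration
-/

set_option autoImplicit false

namespace Pool.Agent.Helper16.LGB

open Pool.Agent.Helper45.LGB

private theorem act_add {p : ℕ} {ι V : Type} [AddCommGroup V] [Module (ZMod p) V]
    (f : ι → Module.End (ZMod p) V) (u : List ι) :
    ∀ a b : V, act f u (a + b) = act f u a + act f u b := by
  induction u with
  | nil => intro a b; rfl
  | cons y u ih =>
    intro a b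
    change act f u (f y (a + b)) = act f u (f y a) + act f u (f y b)
    rw [map_add, ih]

private theorem act_smul {p : ℕ} {ι V : Type} [AddCommGroup V] [Module (ZMod p) V]
    (f : ι → Module.End (ZMod p) V) (u : List ι) :
    ∀ (c : ZMod p) (a : V), act f u (c • a) = c • act f u a := by
  induction u with
  | nil => intro c a; rfl
  | cons y u ih =>
    intro c a
    change act f u (f y (c • a)) = c • act f u (f y a)
    rw [map_smul, ih]

private theorem act_zero {p : ℕ} {ι V : Type} [AddCommGroup V] [Module (ZMod p) V]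
    (f : ι → Module.End (ZMod p) V) (u : List ι) : act f u (0 : V) = 0 := by
  induction u with
  | nil => rfl
  | cons y u ih =>
    change act f u (f y 0) = 0
    rw [map_zero, ih]

/-- every letter of a word without a packing of size `j + 1` is near to a given packing of
size `j` -/
private theorem near_of_max (hNRT : StNRT) {ι : Type} (E : ι → ι → Prop) (hE : Sy E) (r j : ℕ)
    (T : Set ι) (hno : ¬ Pk E r (j + 1) T) (P : Finset ι) (hcard : P.card = j)
    (hsub : ∀ a ∈ P, a ∈ T) (hfar : ∀ a ∈ P, ∀ b ∈ P, a ≠ b → ¬ nr E r a b) :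
    ∀ g ∈ T, ∃ a ∈ P, nr E r a g := by
  classical
  intro g hg
  by_contra hcon
  push Not at hcon
  obtain ⟨n1, n2, n3, n4, n5⟩ := hNRT ι E
  apply hno
  have hgP : g ∉ P := fun h => hcon g h (n1 r g)
  refine ⟨insert g P, ?_, ?_, ?_⟩
  · rw [Finset.card_insert_of_notMem hgP, hcard]
  · intro a ha
    rcases Finset.mem_insert.1 ha with rfl | ha
    · exact hg
    · exact hsub a ha
  · intro a ha b hb hab h
    rcases Finset.mem_insert.1 ha with ha' | ha'
    · rcases Finset.mem_insert.1 hb with hb' | hb'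
      · exact hab (ha'.trans hb'.symm)
      · rw [ha'] at h
        exact hcon b hb' (n4 hE r _ _ h)
    · rcases Finset.mem_insert.1 hb with hb' | hb'
      · rw [hb'] at h
        exact hcon a ha' h
      · exact hfar a ha' b hb' hab h

/-- the pigeonhole principle for the centres -/
private theorem exists_far (hNRT : StNRT) {ι : Type} (E : ι → ι → Prop) (hE : Sy E)
    (r q j ρ₀ : ℕ) (hjq : j ≤ q) (x : ι) (T S T' : Set ι)
    (hS : ∀ s ∈ S, E x s ∨ ∃ g ∈ T, nr E r g s) (P : Finset ι) (hcard : P.card = j)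
    (hnear : ∀ g ∈ T, ∃ a ∈ P, nr E r a g) (hPk : Pk E (2 * (ρ₀ + 2 * r + 1)) (q + 2) T') :
    ∃ y ∈ T', ∀ s ∈ S, ¬ nr E ρ₀ s y := by
  classical
  obtain ⟨n1, n2, n3, n4, n5⟩ := hNRT ι E
  obtain ⟨P', hcard', hsub', hfar'⟩ := hPk
  by_contra hcon
  push Not at hcon
  have hc : ∀ y ∈ P', ∃ c ∈ insert x P, nr E (ρ₀ + 2 * r + 1) c y := by
    intro y hy
    obtain ⟨s, hs, hsy⟩ := hcon y (hsub' y hy)
    rcases hS s hs with h | ⟨g, hg, h⟩
    · refine ⟨x, Finset.mem_insert_self _ _, ?_⟩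
      exact n2 (1 + ρ₀) _ _ _ (by omega) (n3 1 ρ₀ x s y (n5 x s h) hsy)
    · obtain ⟨a, ha, hag⟩ := hnear g hg
      refine ⟨a, Finset.mem_insert_of_mem ha, ?_⟩
      exact n2 (r + r + ρ₀) _ _ _ (by omega) (n3 (r + r) ρ₀ a s y (n3 r r a g s hag h) hsy)
  choose! c hc1 hc2 using hc
  have hlt : (insert x P).card < P'.card := by
    have := Finset.card_insert_le x P
    omega
  obtain ⟨y, hy, y', hy', hne, he⟩ := Finset.exists_ne_map_eq_of_card_lt_of_maps_to hlt
    (fun y hy => hc1 y hy)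
  apply hfar' y hy y' hy' hne
  have h1 := n4 hE _ _ _ (hc2 y hy)
  have h2 := hc2 y' hy'
  rw [← he] at h2
  exact n2 _ _ _ _ (by omega) (n3 _ _ _ _ _ h1 h2)

theorem hSTP (hNRT : StNRT) (_hPKU : StPKU) (hLST : StLST) (hLOC : StLOC) (hMJD : StMJD) :
    StSTP := by
  intro p m r q _ hm hPP ι E V _ _ f Y W W' x w hC hx hw j w' hjq hw' hPk z hz
  obtain ⟨m1, m2, m3, _, _, m6, m7⟩ := hMJD p m r q hm hPP ι E V f Y W W' x w hC hx hw
  obtain ⟨_, _, _, _, _, l6, _, l8, _⟩ := hLST p ι V f Y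
  obtain ⟨hE, _, _, hSW, hSW', _⟩ := id hC
  have key : ∀ z ∈ {z | ∃ γ u : List ι, (∀ i ∈ γ, i ∈ Y ∧ ¬ E x i) ∧
      Pk E r j (ltr γ) ∧ (∀ i ∈ u, i ∈ Y) ∧ z = act f u (act f γ (f x w))},
      act f w' z ∈ Mj E f Y W' r x w (j + 1) := by
    rintro z ⟨γ, u, hγ, hPkγ, hu, rfl⟩
    rw [← l6 u w']
    have huw : ∀ i ∈ u ++ w', i ∈ Y := by
      intro i hi
      rcases List.mem_append.1 hi with h | h
      · exact hu i h
      · exact hw' i h
    by_cases hbig : Pk E r (j + 1) (ltr γ)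
    · refine l8 _ (m2 (j + 1)) _ huw _ ?_
      refine (le_sup_left : _ ≤ Mj E f Y W' r x w (j + 1)) (Submodule.subset_span ?_)
      exact ⟨γ, [], hγ, hbig, fun i hi => absurd hi (List.not_mem_nil), rfl⟩
    · obtain ⟨P, hcard, hsub, hfar⟩ := id hPkγ
      have hnear := near_of_max hNRT E hE r j (ltr γ) hbig P hcard hsub hfar
      obtain ⟨y, hy, hfarS⟩ := exists_far hNRT E hE r q j _ hjq x (ltr γ)
        {y | E x y ∨ ∃ g ∈ ltr γ, nr E r g y} (ltr w') (fun s hs => hs) P hcard hnear hPk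
      have hvW : act f γ (f x w) ∈ W := l8 W hSW γ (fun i hi => (hγ i hi).1) _ (hSW x hx w hw)
      refine hLOC p m r q hm hPP ι E V f Y {y | E x y ∨ ∃ g ∈ ltr γ, nr E r g y} W
        (Mj E f Y W' r x w (j + 1)) (act f γ (f x w)) (m6 (j + 1)) hvW ?_ (u ++ w') huw y
        (List.mem_append.2 (Or.inr hy)) (fun s hs _ => hfarS s hs)
      intro z hzY hzS
      refine m7 j γ z hγ hzY (fun h => hzS (Or.inl h)) (fun g hg h => hzS (Or.inr ⟨g, hg, h⟩)) hPkγ
  have key2 : ∀ a ∈ Submodule.span (ZMod p) {z | ∃ γ u : List ι, (∀ i ∈ γ, i ∈ Y ∧ ¬ E x i) ∧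
      Pk E r j (ltr γ) ∧ (∀ i ∈ u, i ∈ Y) ∧ z = act f u (act f γ (f x w))},
      act f w' a ∈ Mj E f Y W' r x w (j + 1) := by
    intro a ha
    induction ha using Submodule.span_induction with
    | mem z hz => exact key z hz
    | zero =>
      rw [act_zero]
      exact Submodule.zero_mem _
    | add a a' _ _ h h' =>
      rw [act_add]
      exact Submodule.add_mem _ h h'
    | smul c a _ h =>
      rw [act_smul]
      exact Submodule.smul_mem _ c h
  obtain ⟨a, ha, b, hb, rfl⟩ := Submodule.mem_sup.1 hz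
  rw [act_add]
  exact Submodule.add_mem _ (key2 a ha) ((m3 (j + 1)).1 (l8 W' hSW' w' hw' b hb))

end Pool.Agent.Helper16.LGB
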